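import Pool.Agent.Q274.TWD.Card

/-!
# The addition tables of progression-free sets of integers
-/

set_option autoImplicit false

namespace Pool.Agent.Results.MP_0f71ae_nt.AdditionTables

open Finset Pool.Agent.Q274.TWD Pool.Agent.Y422.TW

/-- `A` contains no nontrivial `k`-term arithmetic progression. -/
def APFree (k : ℕ) (A : Finset ℤ) : Prop :=
  ∀ x d : ℤ, (∀ i < k, x + i * d ∈ A) → d = 0

/-- the integers `x` with `|x| ≤ N` -/
abbrev Box (N : ℕ) : Type := {x : ℤ // x ∈ Finset.Icc (-(N : ℤ)) N}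

/-- The relation `F` is given by adjacency in a finite graph of twin-width at most `w`: for some
maps `f`, `g` into the vertices `F x y` holds if and only if `f x` and `g y` are adjacent. (For
instance the vertices are the rows and the columns of `F` and the graph is the bipartite graph
of `F`.) -/
def HasTwinWidth {X Y : Type} (F : X → Y → Prop) (w : ℕ) : Prop :=
  ∃ (V : Type) (_ : Fintype V) (H : SimpleGraph V) (f : X → V) (g : Y → V),
    TwinWidthLE H w ∧ ∀ x y, F x y ↔ H.Adj (f x) (g y)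

/-- The relation `F` is the union of `T` product sets `P t × R t`. -/
def HasCover {X Y : Type} (F : X → Y → Prop) (T : ℕ) : Prop :=
  ∃ (P : Fin T → Finset X) (R : Fin T → Finset Y), ∀ x y, F x y ↔ ∃ t, x ∈ P t ∧ y ∈ R t

/-- the addition table of `A`: the relation `x + y ∈ A` for `|x|, |y| ≤ N` -/
def SumTable (N : ℕ) (A : Finset ℤ) (x y : Box N) : Prop := x.1 + y.1 ∈ A

/-- the subtraction table of `A`: the relation `x - y ∈ A` for `|x|, |y| ≤ N` -/
def DiffTable (N : ℕ) (A : Finset ℤ) (x y : Box N) : Prop := x.1 - y.1 ∈ A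

theorem card_Box (N : ℕ) : Fintype.card (Box N) = 2 * N + 1 := by
  rw [Fintype.card_coe, Int.card_Icc]
  omega

/-- the ones of the table -/
theorem le_num (N : ℕ) (A : Finset ℤ) (hA : ∀ a ∈ A, 1 ≤ a ∧ a ≤ N) :
    A.card * (N + 1) ≤ num (SumTable N A) := by
  classical
  rw [num_eq, ← card_range (N + 1), ← card_product]
  refine card_le_card_of_injOn (fun q : ℤ × ℕ =>
    if h : (1 ≤ q.1 ∧ q.1 ≤ N) ∧ q.2 ≤ N then
      ((⟨(q.2 : ℤ), by rw [Finset.mem_Icc]; omega⟩, ⟨q.1 - q.2, by rw [Finset.mem_Icc]; omega⟩) :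
        Box N × Box N)
    else (⟨0, by rw [Finset.mem_Icc]; omega⟩, ⟨0, by rw [Finset.mem_Icc]; omega⟩)) ?_ ?_
  · rintro ⟨a, t⟩ hq
    simp only [coe_product, Set.mem_prod, mem_coe, mem_range] at hq
    have h : (1 ≤ a ∧ a ≤ N) ∧ t ≤ N := ⟨hA a hq.1, by omega⟩
    simp only [h, and_self, dif_pos, coe_filter, mem_univ, true_and, Set.mem_ofPred_eq, SumTable,
      true_and]
    have e : (t : ℤ) + (a - t) = a := by ring
    rw [e]
    exact hq.1
  · rintro ⟨a, t⟩ hq ⟨b, s⟩ hq' hab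
    simp only [coe_product, Set.mem_prod, mem_coe, mem_range] at hq hq'
    have h : (1 ≤ a ∧ a ≤ N) ∧ t ≤ N := ⟨hA a hq.1, by omega⟩
    have h' : (1 ≤ b ∧ b ≤ N) ∧ s ≤ N := ⟨hA b hq'.1, by omega⟩
    simp only [dif_pos h, dif_pos h', Prod.mk.injEq, Subtype.mk.injEq] at hab
    have h1 : t = s := by exact_mod_cast hab.1
    subst h1
    have h2 : a = b := by linarith [hab.2]
    rw [h2]

/-- product sets inside the table -/
theorem rect (N m ρ : ℕ) (hρ : ∀ W : Finset ℤ, (∀ x ∈ W, |x| ≤ N) → APFree m W → W.card ≤ ρ)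
    (A : Finset ℤ) (hA : APFree (2 * m - 1) A) (P R : Finset (Box N))
    (h : ∀ x ∈ P, ∀ y ∈ R, SumTable N A x y) : P.card * R.card ≤ (4 * N + 1) * ρ := by
  classical
  by_contra hcon
  push Not at hcon
  have hmap : ∀ q ∈ P ×ˢ R, q.2.1 - q.1.1 ∈ Finset.Icc (-(2 * N : ℤ)) (2 * N) := by
    intro q _
    have h1 := Finset.mem_Icc.1 q.1.2
    have h2 := Finset.mem_Icc.1 q.2.2
    rw [Finset.mem_Icc]
    omega
  have hc : (Finset.Icc (-(2 * N : ℤ)) (2 * N)).card * ρ < (P ×ˢ R).card := by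
    rw [Int.card_Icc, card_product]
    have : ((2 * (N : ℤ) + 1 - -(2 * (N : ℤ))).toNat) = 4 * N + 1 := by omega
    rw [this]
    exact hcon
  obtain ⟨t, -, ht⟩ := exists_lt_card_fiber_of_mul_lt_card_of_maps_to hmap hc
  set Z := (P ×ˢ R).filter (fun q => q.2.1 - q.1.1 = t) with hZ
  have hZ' : ∀ q ∈ Z, q.1 ∈ P ∧ q.2 ∈ R ∧ q.2.1 = q.1.1 + t := by
    intro q hq
    rw [hZ, mem_filter, mem_product] at hq
    exact ⟨hq.1.1, hq.1.2, by linarith [hq.2]⟩
  let W := Z.image (fun q => q.1.1)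
  have hWc : W.card = Z.card := by
    refine card_image_of_injOn ?_
    intro q hq q' hq' hqq
    have h1 := (hZ' q hq).2.2
    have h2 := (hZ' q' hq').2.2
    simp only at hqq
    refine Prod.ext (Subtype.ext hqq) (Subtype.ext ?_)
    rw [h1, h2, hqq]
  have hWle : W.card ≤ ρ := by
    refine hρ W ?_ ?_
    · intro x hx
      obtain ⟨q, -, rfl⟩ := mem_image.1 hx
      have h1 := Finset.mem_Icc.1 q.1.2
      exact abs_le.2 h1
    · intro x d hxd
      by_cases hm : m = 0
      · subst hm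
        exact hA 0 d (by simp)
      refine hA (2 * x + t) d ?_
      intro l hl
      obtain ⟨i, j, hi, hj, hij⟩ : ∃ i j, i < m ∧ j < m ∧ l = i + j := by
        by_cases hlm : l < m
        · exact ⟨l, 0, hlm, by omega, by omega⟩
        · exact ⟨m - 1, l - (m - 1), by omega, by omega, by omega⟩
      obtain ⟨q, hq, hqx⟩ := mem_image.1 (hxd i hi)
      obtain ⟨q', hq', hqx'⟩ := mem_image.1 (hxd j hj)
      have h1 := h q.1 (hZ' q hq).1 q'.2 (hZ' q' hq').2.1
      unfold SumTable at h1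
      have h2 : q.1.1 + q'.2.1 = 2 * x + t + (l : ℤ) * d := by
        rw [(hZ' q' hq').2.2]
        rw [hqx, hqx', hij]
        push_cast
        ring
      rwa [h2] at h1
  omega

theorem num_le_cover {X Y : Type} [Fintype X] [Fintype Y] (F : X → Y → Prop) {T : ℕ}
    (P : Fin T → Finset X) (R : Fin T → Finset Y)
    (hF : ∀ x y, F x y → ∃ t, x ∈ P t ∧ y ∈ R t) :
    num F ≤ ∑ t, (P t).card * (R t).card := by
  classical
  rw [num_eq]
  refine (card_le_card (t := univ.biUnion fun t => P t ×ˢ R t) ?_).trans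
    (card_biUnion_le.trans (sum_le_sum fun t _ => by rw [card_product]))
  intro q hq
  rw [mem_filter] at hq
  obtain ⟨t, ht1, ht2⟩ := hF q.1 q.2 hq.2
  exact mem_biUnion.2 ⟨t, mem_univ t, mem_product.2 ⟨ht1, ht2⟩⟩

def negBox {N : ℕ} (y : Box N) : Box N := ⟨-y.1, by
  have := Finset.mem_Icc.1 y.2
  rw [Finset.mem_Icc]
  omega⟩

theorem diff_iff (N : ℕ) (A : Finset ℤ) (x y : Box N) :
    SumTable N A x y ↔ DiffTable N A x (negBox y) := by
  unfold SumTable DiffTable negBox
  simp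

theorem of_diff {N : ℕ} {A : Finset ℤ} {w : ℕ} (h : HasTwinWidth (DiffTable N A) w) :
    HasTwinWidth (SumTable N A) w := by
  obtain ⟨V, iV, H, f, g, hw, hF⟩ := h
  exact ⟨V, iV, H, f, fun y => g (negBox y), hw, fun x y => (diff_iff N A x y).trans (hF _ _)⟩

theorem cover_of_diff {N : ℕ} {A : Finset ℤ} {T : ℕ} (h : HasCover (DiffTable N A) T) :
    HasCover (SumTable N A) T := by
  classical
  obtain ⟨P, R, hF⟩ := h
  refine ⟨P, fun t => (R t).image negBox, fun x y => ?_⟩
  rw [diff_iff, hF]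
  refine exists_congr fun t => and_congr_right fun _ => ?_
  rw [mem_image]
  constructor
  · intro h
    exact ⟨negBox y, h, Subtype.ext (neg_neg _)⟩
  · rintro ⟨z, hz, rfl⟩
    have : negBox (negBox z) = z := Subtype.ext (neg_neg _)
    rwa [this]

theorem main (N m ρ : ℕ) (hρ : ∀ W : Finset ℤ, (∀ x ∈ W, |x| ≤ N) → APFree m W → W.card ≤ ρ)
    (A : Finset ℤ) (hAN : ∀ a ∈ A, 1 ≤ a ∧ a ≤ N) (hA : APFree (2 * m - 1) A) :
    (∀ T : ℕ, (HasCover (SumTable N A) T ∨ HasCover (DiffTable N A) T) → A.card ≤ 4 * T * ρ) ∧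
    (∀ w : ℕ, (HasTwinWidth (SumTable N A) w ∨ HasTwinWidth (DiffTable N A) w) →
      A.card ^ 3 ≤ 32768 * (w + 1) * (N + 1) ^ 2 * ρ) := by
  constructor
  · intro T hT
    have hT' : HasCover (SumTable N A) T := by
      rcases hT with h | h
      · exact h
      · exact cover_of_diff h
    obtain ⟨P, R, hF⟩ := hT'
    have e1 : A.card * (N + 1) ≤ ∑ t, (P t).card * (R t).card :=
      (le_num N A hAN).trans (num_le_cover _ P R fun x y h => (hF x y).1 h)
    have e3 : ∑ t, (P t).card * (R t).card ≤ T * ((4 * N + 1) * ρ) := by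
      have := sum_le_card_nsmul univ (fun t => (P t).card * (R t).card) ((4 * N + 1) * ρ)
        (fun t _ => rect N m ρ hρ A hA _ _ fun a ha b hb => (hF a b).2 ⟨t, ha, hb⟩)
      simpa [card_univ] using this
    have e4 : A.card * (N + 1) ≤ (4 * T * ρ) * (N + 1) := by
      refine (e1.trans e3).trans ?_
      calc T * ((4 * N + 1) * ρ) = (T * ρ) * (4 * N + 1) := by ring
        _ ≤ (T * ρ) * (4 * (N + 1)) := Nat.mul_le_mul_left _ (by omega)
        _ = _ := by ring
    exact Nat.le_of_mul_le_mul_right e4 (by omega)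
  · intro w hw
    have hw' : HasTwinWidth (SumTable N A) w := by
      rcases hw with h | h
      · exact h
      · exact of_diff h
    obtain ⟨V, _, H, f, g, hw, hF⟩ := hw'
    obtain ⟨P, R, hPR, hc⟩ := dense_rect' H w hw f g _ hF
    rw [card_Box] at hc
    have e2 := rect N m ρ hρ A hA P R hPR
    have e3 : A.card ^ 3 * (N + 1) ^ 3 ≤ (32768 * (w + 1) * (N + 1) ^ 2 * ρ) * (N + 1) ^ 3 := by
      calc A.card ^ 3 * (N + 1) ^ 3 = (A.card * (N + 1)) ^ 3 := by ring
        _ ≤ num (SumTable N A) ^ 3 := Nat.pow_le_pow_left (le_num N A hAN) 3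
        _ ≤ 512 * (w + 1) * ((2 * N + 1) * (2 * N + 1)) ^ 2 * (P.card * R.card) := hc
        _ ≤ 512 * (w + 1) * ((2 * (N + 1)) * (2 * (N + 1))) ^ 2 * ((4 * (N + 1)) * ρ) := by
            refine Nat.mul_le_mul (Nat.mul_le_mul_left _ (Nat.pow_le_pow_left
              (Nat.mul_le_mul (by omega) (by omega)) 2)) (e2.trans (Nat.mul_le_mul_right _ ?_))
            omega
        _ = _ := by ring
    exact Nat.le_of_mul_le_mul_right e3 (by positivity)

/-- sets without two-term progressions -/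
theorem two_free (N : ℕ) (W : Finset ℤ) (_ : ∀ x ∈ W, |x| ≤ N) (hW : APFree 2 W) :
    W.card ≤ 1 := by
  rw [card_le_one]
  intro a ha b hb
  have := hW a (b - a) (fun i hi => by
    interval_cases i
    · simpa using ha
    · simpa using hb)
  linarith

/-- the largest number of integers `x` with `|x| ≤ N` and without an `m`-term progression -/
noncomputable def r (m N : ℕ) : ℕ :=
  sSup {c : ℕ | ∃ W : Finset ℤ, (∀ x ∈ W, |x| ≤ N) ∧ APFree m W ∧ W.card = c}

theorem le_r (m N : ℕ) (W : Finset ℤ) (h : ∀ x ∈ W, |x| ≤ N) (hW : APFree m W) :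
    W.card ≤ r m N := by
  refine le_csSup ⟨2 * N + 1, ?_⟩ ⟨W, h, hW, rfl⟩
  rintro c ⟨W', hW', -, rfl⟩
  have h1 : W' ⊆ Finset.Icc (-(N : ℤ)) N := fun x hx => by
    rw [Finset.mem_Icc]
    exact abs_le.1 (hW' x hx)
  have h2 := card_le_card h1
  rw [Int.card_Icc] at h2
  omega

/-- **The addition tables of progression-free sets.** Let `A ⊆ {1, …, N}`.
(1) If `A` has no three-term progression and its addition (or subtraction) table is a union of
`T` product sets then `|A| ≤ 4 T`; if the table has twin-width at most `w` then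
`|A|³ ≤ 32768 (w + 1) (N + 1)²`.
(2) If `N ≥ 1` and `A` has no three-term progression and `|A| ≥ r₃(N)` then
`T ≥ N exp(-4 √(log N)) / 4` and `w + 1 ≥ N exp(-12 √(log N)) / 131072`.
(3) If `A` has no `(2 m - 1)`-term progression then `|A| ≤ 4 T r_m` and
`|A|³ ≤ 32768 (w + 1) (N + 1)² r_m`, where `r_m = r m N` is the largest number of elements of a
set without `m`-term progression in an interval of `2 N + 1` integers. -/
theorem result (N : ℕ) (A : Finset ℤ) (hAN : ∀ a ∈ A, 1 ≤ a ∧ a ≤ N) :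
    (APFree 3 A →
      (∀ T : ℕ, (HasCover (SumTable N A) T ∨ HasCover (DiffTable N A) T) → A.card ≤ 4 * T) ∧
      (∀ w : ℕ, (HasTwinWidth (SumTable N A) w ∨ HasTwinWidth (DiffTable N A) w) →
        A.card ^ 3 ≤ 32768 * (w + 1) * (N + 1) ^ 2)) ∧
    (APFree 3 A → 1 ≤ N → rothNumberNat N ≤ A.card →
      (∀ T : ℕ, (HasCover (SumTable N A) T ∨ HasCover (DiffTable N A) T) →
        (N : ℝ) * Real.exp (-4 * √(Real.log N)) / 4 ≤ T) ∧
      (∀ w : ℕ, (HasTwinWidth (SumTable N A) w ∨ HasTwinWidth (DiffTable N A) w) →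
        (N : ℝ) * Real.exp (-12 * √(Real.log N)) / 131072 ≤ w + 1)) ∧
    (∀ m : ℕ, APFree (2 * m - 1) A →
      (∀ T : ℕ, (HasCover (SumTable N A) T ∨ HasCover (DiffTable N A) T) →
        A.card ≤ 4 * T * r m N) ∧
      (∀ w : ℕ, (HasTwinWidth (SumTable N A) w ∨ HasTwinWidth (DiffTable N A) w) →
        A.card ^ 3 ≤ 32768 * (w + 1) * (N + 1) ^ 2 * r m N)) := by
  have h3 : APFree 3 A →
      (∀ T : ℕ, (HasCover (SumTable N A) T ∨ HasCover (DiffTable N A) T) → A.card ≤ 4 * T) ∧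
      (∀ w : ℕ, (HasTwinWidth (SumTable N A) w ∨ HasTwinWidth (DiffTable N A) w) →
        A.card ^ 3 ≤ 32768 * (w + 1) * (N + 1) ^ 2) := by
    intro hA
    have := main N 2 1 (two_free N) A hAN hA
    simpa only [mul_one] using this
  refine ⟨h3, ?_, fun m hA => main N m (r m N) (le_r m N) A hAN hA⟩
  intro hA hN hr
  have hB := Behrend.roth_lower_bound (N := N)
  have hcard : (N : ℝ) * Real.exp (-4 * √(Real.log N)) ≤ A.card :=
    hB.trans (by exact_mod_cast hr)
  refine ⟨fun T hT => ?_, fun w hw => ?_⟩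
  · have h1 : (A.card : ℝ) ≤ 4 * T := by exact_mod_cast (h3 hA).1 T hT
    linarith
  · have h1 : (A.card : ℝ) ^ 3 ≤ 32768 * (w + 1) * (N + 1) ^ 2 := by
      exact_mod_cast (h3 hA).2 w hw
    have hN0 : (1 : ℝ) ≤ N := by exact_mod_cast hN
    have h2 : ((N : ℝ) * Real.exp (-4 * √(Real.log N))) ^ 3 ≤ 131072 * (w + 1) * N ^ 2 := by
      calc ((N : ℝ) * Real.exp (-4 * √(Real.log N))) ^ 3 ≤ (A.card : ℝ) ^ 3 :=
            pow_le_pow_left₀ (by positivity) hcard 3
        _ ≤ 32768 * (w + 1) * (N + 1) ^ 2 := h1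
        _ ≤ 32768 * (w + 1) * (2 * N) ^ 2 := by
            have : ((N : ℝ) + 1) ^ 2 ≤ (2 * N) ^ 2 :=
              pow_le_pow_left₀ (by positivity) (by linarith) 2
            exact mul_le_mul_of_nonneg_left this (by positivity)
        _ = _ := by ring
    have h4 : ((N : ℝ) * Real.exp (-4 * √(Real.log N))) ^ 3
        = N ^ 2 * (N * Real.exp (-12 * √(Real.log N))) := by
      rw [mul_pow, ← Real.exp_nat_mul]
      have : ((3 : ℕ) : ℝ) * (-4 * √(Real.log N)) = -12 * √(Real.log N) := by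
        push_cast
        ring
      rw [this]
      ring
    rw [h4] at h2
    have h5 : (N : ℝ) * Real.exp (-12 * √(Real.log N)) ≤ 131072 * (w + 1) := by
      refine le_of_mul_le_mul_left ?_ (show (0 : ℝ) < N ^ 2 by positivity)
      calc (N : ℝ) ^ 2 * (N * Real.exp (-12 * √(Real.log N))) ≤ 131072 * (w + 1) * N ^ 2 := h2
        _ = _ := by ring
    linarith

end Pool.Agent.Results.MP_0f71ae_nt.AdditionTables
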