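import Pool.Agent.Q52.BohrBeh

/-!
# Progression-free sets of bounded Bohr dimension, and the dimension of the extremal sets

A subset `A` of `[1, N]` has a description of dimension `d` and complexity `(P, T)` if it is the union
of `T` sets `{n ∈ [1, N] : (θ_1 n + α_1, …, θ_d n + α_d) mod 1 ∈ S}`, where every line of `ℝ^d` meets
`S` in at most `P` intervals (for instance `P = 1` for convex `S`, `P = 2` for spherical shells; the
phases and `S` may depend on `N`). Behrend's sets have such descriptions with `d = ⌈√(log N)⌉`,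
`P = 2`, `T = 1`. If `A` contains no progression of `k` terms, then
`|A| ≤ 6 (k - 1) T P d N ^ (d / (d + 1))`. So for `d ≤ D √(log N)` the largest progression-free sets
with such a description have size `N exp (- Θ(√(log N)))`, and every progression-free set of size at
least `N exp (- C √(log N))`, in particular every extremal set for `r_3(N)`, has dimension at least
`c √(log N)`.
-/

set_option autoImplicit false

open Finset

namespace Pool.Agent.Results.MP_0f71ae_nt.BohrDimension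

/-- `T ⊆ ℝ` is a union of at most `P` intervals (of any kind) -/
def Intervals (P : ℕ) (T : Set ℝ) : Prop :=
  ∃ I : Fin P → Set ℝ, (∀ i, (I i).OrdConnected) ∧ T = ⋃ i, I i

/-- every line meets `S ⊆ ℝ^d` in at most `P` intervals -/
def LineSimple {d : ℕ} (P : ℕ) (S : Set (Fin d → ℝ)) : Prop :=
  ∀ x v : Fin d → ℝ, Intervals P {t : ℝ | x + t • v ∈ S}

/-- the point of `[0,1)^d` attached to `n` by the phases `θ_i n + α_i` -/
noncomputable def point {d : ℕ} (θ α : Fin d → ℝ) (n : ℕ) : Fin d → ℝ :=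
  fun i => Int.fract (θ i * n + α i)

/-- `A ⊆ [1, N]` is the union of `T` sets described by `d` phases and by a set of `ℝ^d` which meets
every line in at most `P` intervals -/
def Described (d P T N : ℕ) (A : Finset ℕ) : Prop :=
  ∃ (θ α : Fin T → Fin d → ℝ) (S : Fin T → Set (Fin d → ℝ)), (∀ t, LineSimple P (S t)) ∧
    ∀ n, n ∈ A ↔ n ∈ Icc 1 N ∧ ∃ t, point (θ t) (α t) n ∈ S t

/-- `A` contains no arithmetic progression of `k` terms -/
def APFree (k : ℕ) (A : Finset ℕ) : Prop := ∀ a q, 0 < q → ¬ ∀ l < k, a + l * q ∈ A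

/-! ### the upper bound -/

lemma upper {k d P T N : ℕ} (hk : 1 ≤ k) (hd : 1 ≤ d) (hN : 1 ≤ N) {A : Finset ℕ}
    (hA : Described d P T N A) (hfree : APFree k A) :
    (A.card : ℝ) ≤ 6 * (k - 1 : ℕ) * T * P * d * (N:ℝ) ^ ((d:ℝ) / (d + 1)) := by
  classical
  obtain ⟨θ, α, S, hS, hmem⟩ := hA
  have hNR : (1:ℝ) ≤ N := by exact_mod_cast hN
  have hN0 : (0:ℝ) ≤ N := by linarith
  have hd1 : (0:ℝ) < (d:ℝ) + 1 := by positivity
  set R : ℝ := (N:ℝ) ^ (1 / ((d:ℝ) + 1)) with hR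
  set X : ℝ := (N:ℝ) ^ ((d:ℝ) / (d + 1)) with hX
  have hR1 : 1 ≤ R := Real.one_le_rpow hNR (by positivity)
  have hRd : R ^ d = X := by
    rw [hR, hX, ← Real.rpow_natCast, ← Real.rpow_mul hN0]
    congr 1
    field_simp
  have hRX : R * X = N := by
    rw [hR, hX, ← Real.rpow_add (by linarith)]
    have : 1 / ((d:ℝ) + 1) + d / (d + 1) = 1 := by field_simp; ring
    rw [this, Real.rpow_one]
  have hX0 : 0 < X := by positivity
  set Q : ℕ := ⌊R⌋₊ with hQdef
  have hQ : 0 < Q := Nat.floor_pos.2 hR1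
  have hQR : (0:ℝ) < Q := by exact_mod_cast hQ
  have hQle : (Q:ℝ) ≤ R := Nat.floor_le (by linarith)
  have hQge : R ≤ 2 * Q := by
    have h1 := Nat.lt_floor_add_one R
    have h2 : (1:ℝ) ≤ Q := by exact_mod_cast hQ
    rw [← hQdef] at h1
    linarith
  have hQX : (Q:ℝ) ^ d ≤ X := by
    rw [← hRd]
    gcongr
  have hXN : X ≤ N := by nlinarith
  have hQN : Q ^ d ≤ N := by
    have : ((Q ^ d : ℕ) : ℝ) ≤ N := by push_cast; linarith
    exact_mod_cast this
  have hNQ : (N:ℝ) / Q ≤ 2 * X := by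
    rw [div_le_iff₀ hQR, ← hRX]
    nlinarith
  set At : Fin T → Finset ℕ := fun t => (Icc 1 N).filter fun n => point (θ t) (α t) n ∈ S t with hAt
  have hsubA : ∀ t, At t ⊆ A := fun t n hn => by
    rw [hAt] at hn
    simp only [mem_filter] at hn
    exact (hmem n).2 ⟨hn.1, t, hn.2⟩
  have h1 : ∀ t, ((At t).card : ℝ) ≤ (k - 1 : ℕ) * (P * (6 * d * X)) := by
    intro t
    have h := Pool.Agent.Q52.Bohr.one hk (N := N) (hS t) (θ t) (α t) (A := At t)
      (fun n => by
        rw [hAt]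
        simp only [mem_filter]
        rfl)
      (fun a q hq hall => hfree a q hq fun l hl => hsubA t (hall l hl)) hQ hQN
    refine h.trans ?_
    have hd1' : (1:ℝ) ≤ d := by exact_mod_cast hd
    have h2 : (d:ℝ) * (2 * N / Q) + (Q:ℝ) ^ d * (d + 1) ≤ 6 * d * X := by
      have e : (2:ℝ) * N / Q = 2 * (N / Q) := by ring
      rw [e]
      have e1 : (d:ℝ) * (2 * (N / Q)) ≤ d * (2 * (2 * X)) := by gcongr
      have e2 : (Q:ℝ) ^ d * (d + 1) ≤ X * (d + 1) := by gcongr
      nlinarith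
    gcongr
  have hU : A ⊆ univ.biUnion At := by
    intro n hn
    obtain ⟨hnI, t, ht⟩ := (hmem n).1 hn
    rw [mem_biUnion]
    exact ⟨t, mem_univ _, mem_filter.2 ⟨hnI, ht⟩⟩
  calc (A.card : ℝ) ≤ ∑ t, ((At t).card : ℝ) := by
        exact_mod_cast (card_le_card hU).trans card_biUnion_le
    _ ≤ ∑ _t : Fin T, ((k - 1 : ℕ) * (P * (6 * d * X)) : ℝ) := sum_le_sum fun t _ => h1 t
    _ = _ := by
        rw [sum_const, card_univ, Fintype.card_fin, nsmul_eq_mul]
        ring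

/-! ### Behrend's sets -/

/-- Behrend's sets have a description of dimension `d` with `P = 2` -/
lemma behrend_described {d m r N : ℕ} (hd : 0 < d) (hm : 0 < m) (hN : (2 * m - 1) ^ d ≤ N) :
    Described d 2 1 N (((Behrend.sphere d m r).image (Behrend.map (2 * m - 1))).image (· + 1)) := by
  classical
  set b : ℕ := 2 * m - 1 with hb
  have hb0 : 0 < b := by omega
  set w : Fin d → ℝ := fun i => (Pool.Agent.Q52.Bohr.den b N i : ℝ) / b ^ (i:ℕ) with hw
  have hNpos : 0 < N := lt_of_lt_of_le (by positivity) hN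
  refine ⟨fun _ i => 1 / (Pool.Agent.Q52.Bohr.den b N i : ℝ),
    fun _ i => -(1 / (Pool.Agent.Q52.Bohr.den b N i : ℝ)),
    fun _ => Pool.Agent.Q52.Bohr.sph w ((m:ℝ) - 1) r,
    fun _ => Pool.Agent.Q52.Bohr.sph_simple w _ _, fun n => ?_⟩
  have hpt : ∀ n' : ℕ, point (fun i => 1 / (Pool.Agent.Q52.Bohr.den b N i : ℝ))
      (fun i => -(1 / (Pool.Agent.Q52.Bohr.den b N i : ℝ))) (n' + 1) =
      fun i : Fin d => Int.fract ((n':ℝ) / Pool.Agent.Q52.Bohr.den b N i) := by
    intro n'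
    funext i
    unfold point
    congr 1
    push_cast
    ring
  have hsph : ∀ n' : ℕ, n' < N → ((fun i : Fin d => Int.fract ((n':ℝ) /
      Pool.Agent.Q52.Bohr.den b N i)) ∈ Pool.Agent.Q52.Bohr.sph w ((m:ℝ) - 1) r ↔
      Pool.Agent.Q52.Bohr.dig (d := d) b n' ∈ Behrend.sphere d m r) := by
    intro n' hn'
    have hlt : n' < b ^ (d - 1) * N :=
      lt_of_lt_of_le hn' (Nat.le_mul_of_pos_left _ (by positivity))
    unfold Pool.Agent.Q52.Bohr.sph Behrend.sphere
    rw [Set.mem_ofPred_eq, mem_filter, Behrend.mem_box]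
    simp only [Pool.Agent.Q52.Bohr.lin_point hb0 hNpos hlt, hw]
    constructor
    · rintro ⟨_, h2, h3⟩
      refine ⟨fun i => ?_, by exact_mod_cast h3⟩
      have := h2 i
      have h4 : ((Pool.Agent.Q52.Bohr.dig b n' i : ℕ) : ℝ) < m := by linarith
      exact_mod_cast h4
    · rintro ⟨h2, h3⟩
      refine ⟨fun i => by positivity, fun i => ?_, by exact_mod_cast h3⟩
      have h4 : Pool.Agent.Q52.Bohr.dig b n' i + 1 ≤ m := h2 i
      have h5 : ((Pool.Agent.Q52.Bohr.dig b n' i : ℕ) : ℝ) + 1 ≤ m := by exact_mod_cast h4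
      linarith
  have hdig : ∀ a ∈ Behrend.sphere d m r, Behrend.map b a < N ∧
      Pool.Agent.Q52.Bohr.dig (d := d) b (Behrend.map b a) = a := by
    intro a ha
    have hab : ∀ i, a i < m := Behrend.mem_box.1 (Behrend.sphere_subset_box ha)
    have hlt : Behrend.map b a < b ^ d := by
      have h1 := Behrend.map_le_of_mem_box (Behrend.mem_box.2 hab)
      have h2 := Behrend.sum_lt (n := d) (d := m - 1)
      have e : 2 * (m - 1) + 1 = b := by omega
      rw [e] at h2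
      exact h1.trans_lt h2
    refine ⟨hlt.trans_le hN, ?_⟩
    refine Behrend.map_injOn (d := b) ?_ ?_ (Pool.Agent.Q52.Bohr.map_dig b d _ hd)
    · intro i
      unfold Pool.Agent.Q52.Bohr.dig
      split_ifs with h
      · exact Nat.mod_lt _ hb0
      · rw [Nat.div_lt_iff_lt_mul (by positivity), mul_comm, ← pow_succ]
        have : (i:ℕ) + 1 = d := by have := i.2; omega
        rw [this]
        exact hlt
    · intro i
      exact lt_of_lt_of_le (hab i) (by omega)
  constructor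
  · intro hn
    obtain ⟨n', hn', rfl⟩ := mem_image.1 hn
    obtain ⟨a, ha, rfl⟩ := mem_image.1 hn'
    obtain ⟨h1, h2⟩ := hdig a ha
    refine ⟨mem_Icc.2 ⟨by omega, by omega⟩, 0, ?_⟩
    rw [hpt, hsph _ h1, h2]
    exact ha
  · rintro ⟨hnI, _, ht⟩
    rw [mem_Icc] at hnI
    obtain ⟨n', rfl⟩ : ∃ n', n = n' + 1 := ⟨n - 1, by omega⟩
    rw [hpt, hsph n' (by omega)] at ht
    refine mem_image.2 ⟨n', mem_image.2 ⟨_, ht, ?_⟩, rfl⟩
    exact Pool.Agent.Q52.Bohr.map_dig b d n' hd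

lemma behrend_free {d m r : ℕ} :
    APFree 3 (((Behrend.sphere d m r).image (Behrend.map (2 * m - 1))).image (· + 1)) := by
  intro a q hq h
  have h0 := h 0 (by norm_num)
  have h1 := h 1 (by norm_num)
  have h2 := h 2 (by norm_num)
  obtain ⟨x, hx, hxe⟩ := mem_image.1 h0
  obtain ⟨y, hy, hye⟩ := mem_image.1 h1
  obtain ⟨z, hz, hze⟩ := mem_image.1 h2
  have hf := Behrend.threeAPFree_image_sphere (n := d) (d := m) (k := r)
  have := hf (by simpa using hx) (by simpa using hy) (by simpa using hz)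
    (by omega)
  omega

open Real in
/-- Behrend's bound, for sets of dimension `⌈√(log N)⌉` -/
lemma lower {N : ℕ} (hN : 4096 ≤ N) : ∃ A : Finset ℕ, Described ⌈√(log N)⌉₊ 2 1 N A ∧
    APFree 3 A ∧ (N : ℝ) * exp (-4 * √(log N)) < A.card := by
  classical
  set n := Behrend.nValue N with hn_def
  have hn : 0 < (n : ℝ) := Nat.cast_pos.2 (Behrend.nValue_pos <| hN.trans' <| by norm_num1)
  have hd : 0 < Behrend.dValue N := Behrend.dValue_pos (hN.trans' <| by norm_num1)
  have hN₀ : 0 < (N : ℝ) := Nat.cast_pos.2 (hN.trans' <| by norm_num1)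
  have hn₂ : 2 < n := Behrend.three_le_nValue <| hN.trans' <| by norm_num1
  have hle : (2 * Behrend.dValue N - 1) ^ n ≤ N := Behrend.le_N (hN.trans' <| by norm_num1)
  obtain ⟨r, hr⟩ := Behrend.exists_large_sphere n (Behrend.dValue N)
  refine ⟨((Behrend.sphere n (Behrend.dValue N) r).image
    (Behrend.map (2 * Behrend.dValue N - 1))).image (· + 1),
    behrend_described (Behrend.nValue_pos (hN.trans' (by norm_num1))) hd hle, behrend_free, ?_⟩
  have hcard : ((((Behrend.sphere n (Behrend.dValue N) r).image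
      (Behrend.map (2 * Behrend.dValue N - 1))).image (· + 1)).card : ℝ) =
      (Behrend.sphere n (Behrend.dValue N) r).card := by
    have hinj : Set.InjOn (Behrend.map (2 * Behrend.dValue N - 1))
        (Behrend.sphere n (Behrend.dValue N) r : Set (Fin n → ℕ)) := by
      refine Behrend.map_injOn.mono ?_
      intro x hx i
      have := Behrend.mem_box.1 (Behrend.sphere_subset_box (mem_coe.1 hx)) i
      omega
    rw [card_image_of_injective _ (add_left_injective 1), card_image_of_injOn hinj]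
  rw [hcard]
  calc
    _ ≤ (N ^ (n : ℝ)⁻¹ / rexp 1 : ℝ) ^ (n - 2) / n := ?_
    _ < (Behrend.dValue N : ℝ) ^ (n - 2) / n := by
        gcongr
        exacts [(tsub_pos_of_lt hn₂).ne', Behrend.bound hN]
    _ = ((Behrend.dValue N ^ n : ℕ) : ℝ) / ((n * Behrend.dValue N ^ 2 : ℕ) : ℝ) := by
        have hdR : (Behrend.dValue N : ℝ) ≠ 0 := by exact_mod_cast hd.ne'
        push_cast
        rw [pow_sub₀ _ hdR hn₂.le]
        field_simp
    _ ≤ _ := hr
  rw [← rpow_natCast, div_rpow (rpow_nonneg hN₀.le _) (exp_pos _).le, ← rpow_mul hN₀.le,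
    inv_mul_eq_div, Nat.cast_sub hn₂.le, Nat.cast_two, same_sub_div hn.ne', exp_one_rpow,
    div_div, rpow_sub hN₀, rpow_one, div_div, div_eq_mul_inv]
  gcongr _ * ?_
  rw [mul_inv, mul_inv, ← exp_neg, ← rpow_neg (Nat.cast_nonneg _), neg_sub, ← div_eq_mul_inv]
  have : exp (-4 * √(log N)) = exp (-2 * √(log N)) * exp (-2 * √(log N)) := by
    rw [← exp_add, ← add_mul]
    norm_num
  rw [this]
  gcongr
  · rw [← le_log_iff_exp_le (rpow_pos_of_pos hN₀ _), log_rpow hN₀, ← le_div_iff₀, mul_div_assoc,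
      div_sqrt, neg_mul, neg_le_neg_iff, div_mul_eq_mul_div, div_le_iff₀ hn]
    · gcongr
      apply Nat.le_ceil
    refine Real.sqrt_pos.2 (log_pos ?_)
    rw [Nat.one_lt_cast]
    exact hN.trans_lt' (by norm_num1)
  · refine (Behrend.exp_neg_two_mul_le <| Real.sqrt_pos.2 <| log_pos ?_).le
    rw [Nat.one_lt_cast]
    exact hN.trans_lt' (by norm_num1)

/-! ### consequences -/

lemma pow_eq {N d : ℕ} (hN : 1 ≤ N) : (N:ℝ) ^ ((d:ℝ) / (d + 1)) =
    N * Real.exp (-(Real.log N / (d + 1))) := by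
  have hN0 : (0:ℝ) < N := by exact_mod_cast hN
  have hd1 : (0:ℝ) < (d:ℝ) + 1 := by positivity
  have e : (d:ℝ) / (d + 1) = 1 - 1 / (d + 1) := by field_simp; ring
  rw [e, Real.rpow_sub hN0, Real.rpow_one, Real.exp_neg, div_eq_mul_inv,
    Real.rpow_def_of_pos hN0]
  congr 3
  ring

lemma large (s0 : ℝ) : ∃ N₀ : ℕ, ∀ N : ℕ, N₀ ≤ N → 1 ≤ N ∧ s0 ≤ √(Real.log N) := by
  refine ⟨max 1 ⌈Real.exp (s0 ^ 2)⌉₊, fun N hN => ⟨(le_max_left _ _).trans hN, ?_⟩⟩
  have h1 : Real.exp (s0 ^ 2) ≤ N := Nat.ceil_le.1 ((le_max_right _ _).trans hN)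
  refine Real.le_sqrt_of_sq_le ?_
  rw [← Real.log_exp (s0 ^ 2)]
  exact Real.log_le_log (Real.exp_pos _) h1

lemma thin (k : ℕ) (hk : 1 ≤ k) (D : ℝ) : ∃ c : ℝ, 0 < c ∧ ∃ N₀ : ℕ, ∀ N : ℕ, N₀ ≤ N →
    ∀ (d P T : ℕ) (A : Finset ℕ), 1 ≤ d → (d:ℝ) ≤ D * √(Real.log N) →
      (P:ℝ) * T ≤ Real.exp (c * √(Real.log N)) → Described d P T N A → APFree k A →
        (A.card : ℝ) ≤ N * Real.exp (-(c * √(Real.log N))) := by
  set E : ℝ := max D 1 with hE
  have hE1 : 1 ≤ E := le_max_right _ _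
  obtain ⟨N₀, hN₀⟩ := large (768 * k * E ^ 3 + 1)
  refine ⟨1 / (8 * E), by positivity, N₀, fun N hN d P T A hd hdD hPT hA hfree => ?_⟩
  obtain ⟨hN1, hs⟩ := hN₀ N hN
  set s := √(Real.log N) with hsdef
  have hNR : (1:ℝ) ≤ N := by exact_mod_cast hN1
  have hlog : 0 ≤ Real.log N := Real.log_nonneg hNR
  have hs2 : s ^ 2 = Real.log N := Real.sq_sqrt hlog
  have hk0 : (0:ℝ) ≤ k := by positivity
  have hs1 : 1 ≤ s := by
    have : 0 ≤ 768 * (k:ℝ) * E ^ 3 := by positivity
    linarith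
  have hdE : (d:ℝ) ≤ E * s := hdD.trans (by gcongr; exact le_max_left _ _)
  have hu := upper hk hd hN1 hA hfree
  rw [pow_eq hN1, ← hs2] at hu
  -- the exponent
  have h1 : s / (2 * E) ≤ s ^ 2 / ((d:ℝ) + 1) := by
    rw [div_le_div_iff₀ (by positivity) (by positivity)]
    have : (d:ℝ) + 1 ≤ s * (2 * E) := by nlinarith
    calc s * ((d:ℝ) + 1) ≤ s * (s * (2 * E)) := by gcongr
      _ = _ := by ring
  have h2 : 6 * ((k - 1 : ℕ) : ℝ) * d ≤ Real.exp (s / (8 * E)) := by
    have hq := Real.quadratic_le_exp_of_nonneg (x := s / (8 * E)) (by positivity)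
    have h3 : (s / (8 * E)) ^ 2 / 2 ≤ Real.exp (s / (8 * E)) := by
      have : 0 ≤ s / (8 * E) := by positivity
      linarith
    refine le_trans ?_ h3
    have h4 : ((k - 1 : ℕ) : ℝ) ≤ k := by exact_mod_cast Nat.sub_le k 1
    calc 6 * ((k - 1 : ℕ) : ℝ) * d ≤ 6 * k * (E * s) := by gcongr
      _ ≤ _ := by
        have e : (s / (8 * E)) ^ 2 / 2 = s * s / (128 * E ^ 2) := by field_simp; ring
        rw [e, le_div_iff₀ (by positivity)]
        have h5 : 768 * (k:ℝ) * E ^ 3 ≤ s := by linarith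
        calc 6 * (k:ℝ) * (E * s) * (128 * E ^ 2) = (768 * (k:ℝ) * E ^ 3) * s := by ring
          _ ≤ s * s := by gcongr
  have hPT' : (T:ℝ) * P ≤ Real.exp (s / (8 * E)) := by
    rw [mul_comm]
    refine hPT.trans (le_of_eq ?_)
    congr 1
    ring
  calc (A.card : ℝ) ≤ 6 * ((k - 1 : ℕ) : ℝ) * T * P * d * (N * Real.exp (-(s ^ 2 / (d + 1)))) := hu
    _ = (6 * ((k - 1 : ℕ) : ℝ) * d) * (T * P) * (N * Real.exp (-(s ^ 2 / (d + 1)))) := by ring
    _ ≤ Real.exp (s / (8 * E)) * Real.exp (s / (8 * E)) *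
        (N * Real.exp (-(s / (2 * E)))) := by gcongr
    _ = N * Real.exp (s / (8 * E) + s / (8 * E) + -(s / (2 * E))) := by
        rw [Real.exp_add, Real.exp_add]
        ring
    _ ≤ N * Real.exp (-(1 / (8 * E) * s)) := by
        gcongr
        have : s / (8 * E) + s / (8 * E) + -(s / (2 * E)) = -(2 * (1 / (8 * E) * s)) := by
          field_simp
          ring
        rw [this]
        have : 0 ≤ 1 / (8 * E) * s := by positivity
        linarith

lemma dimension (C : ℝ) : ∃ c : ℝ, 0 < c ∧ ∃ N₀ : ℕ, ∀ N : ℕ, N₀ ≤ N →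
    ∀ (d P T : ℕ) (A : Finset ℕ), 1 ≤ d → (P:ℝ) * T ≤ Real.exp (C * √(Real.log N)) →
      Described d P T N A → APFree 3 A → N * Real.exp (-(C * √(Real.log N))) ≤ A.card →
        c * √(Real.log N) ≤ d := by
  set E : ℝ := max C 0 with hE
  have hE0 : 0 ≤ E := le_max_right _ _
  have hCE : C ≤ E := le_max_left _ _
  obtain ⟨N₀, hN₀⟩ := large (max 24 (2 * (2 * E + 1) + 1))
  refine ⟨1 / (2 * (2 * E + 1)), by positivity, N₀, fun N hN d P T A hd hPT hA hfree hbig => ?_⟩
  obtain ⟨hN1, hs⟩ := hN₀ N hN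
  set s := √(Real.log N) with hsdef
  have hNR : (1:ℝ) ≤ N := by exact_mod_cast hN1
  have hs2 : s ^ 2 = Real.log N := Real.sq_sqrt (Real.log_nonneg hNR)
  have hs24 : 24 ≤ s := (le_max_left _ _).trans hs
  have hsE : 2 * (2 * E + 1) + 1 ≤ s := (le_max_right _ _).trans hs
  by_contra hcon
  push Not at hcon
  have hu := upper (k := 3) (by norm_num) hd hN1 hA hfree
  rw [pow_eq hN1, ← hs2] at hu
  have hd1 : (0:ℝ) < (d:ℝ) + 1 := by positivity
  have hds : (d:ℝ) ≤ s := by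
    refine hcon.le.trans ?_
    have : 1 / (2 * (2 * E + 1)) ≤ 1 := by
      rw [div_le_one (by positivity)]
      linarith
    nlinarith
  have h12 : 12 * (d:ℝ) ≤ Real.exp s := by
    have hq := Real.quadratic_le_exp_of_nonneg (x := s) (by linarith)
    nlinarith
  have hPT' : (T:ℝ) * P ≤ Real.exp (E * s) := by
    rw [mul_comm]
    refine hPT.trans (Real.exp_le_exp.2 ?_)
    gcongr
  have hbig' : N * Real.exp (-(E * s)) ≤ A.card := by
    refine le_trans ?_ hbig
    gcongr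
  have h3 : N * Real.exp (-(E * s)) ≤ N * Real.exp (s + E * s + -(s ^ 2 / (d + 1))) := by
    calc N * Real.exp (-(E * s)) ≤ A.card := hbig'
      _ ≤ 6 * ((3 - 1 : ℕ) : ℝ) * T * P * d * (N * Real.exp (-(s ^ 2 / (d + 1)))) := hu
      _ = (12 * d) * (T * P) * (N * Real.exp (-(s ^ 2 / (d + 1)))) := by push_cast; ring
      _ ≤ Real.exp s * Real.exp (E * s) * (N * Real.exp (-(s ^ 2 / (d + 1)))) := by gcongr
      _ = _ := by rw [Real.exp_add, Real.exp_add]; ring
  have h4 : -(E * s) ≤ s + E * s + -(s ^ 2 / (d + 1)) := by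
    have := le_of_mul_le_mul_left h3 (by linarith)
    exact Real.exp_le_exp.1 this
  have h5 : s ^ 2 / ((d:ℝ) + 1) ≤ (2 * E + 1) * s := by linarith
  rw [div_le_iff₀ hd1] at h5
  have h6 : s ≤ (2 * E + 1) * (d + 1) := by
    have hs0 : 0 < s := by linarith
    have : s * s ≤ s * ((2 * E + 1) * (d + 1)) := by nlinarith
    exact le_of_mul_le_mul_left this hs0
  have h7 : (2 * E + 1) * (d:ℝ) < s / 2 := by
    have : (2 * E + 1) * (1 / (2 * (2 * E + 1)) * s) = s / 2 := by field_simp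
    rw [← this]
    gcongr
  nlinarith

/-- `A` is a largest subset of `[1, N]` without three-term progressions: `|A| = r_3(N)` -/
def Extremal (N : ℕ) (A : Finset ℕ) : Prop :=
  A ⊆ Icc 1 N ∧ APFree 3 A ∧ ∀ B ⊆ Icc 1 N, APFree 3 B → B.card ≤ A.card

/-- **Progression-free sets of bounded Bohr dimension.** -/
theorem result :
    -- (1) the upper bound, for progressions of any length
    (∀ k d P T N : ℕ, 1 ≤ k → 1 ≤ d → 1 ≤ N → ∀ A : Finset ℕ, Described d P T N A → APFree k A →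
      (A.card : ℝ) ≤ 6 * (k - 1 : ℕ) * T * P * d * (N:ℝ) ^ ((d:ℝ) / (d + 1))) ∧
    -- (2) Behrend's sets
    (∀ N : ℕ, 4096 ≤ N → ∃ A : Finset ℕ, Described ⌈√(Real.log N)⌉₊ 2 1 N A ∧ APFree 3 A ∧
      (N : ℝ) * Real.exp (-4 * √(Real.log N)) < A.card) ∧
    -- (3) up to the constant Behrend's bound is optimal in dimension `O(√(log N))`
    (∀ k : ℕ, 1 ≤ k → ∀ D : ℝ, ∃ c : ℝ, 0 < c ∧ ∃ N₀ : ℕ, ∀ N : ℕ, N₀ ≤ N →
      ∀ (d P T : ℕ) (A : Finset ℕ), 1 ≤ d → (d:ℝ) ≤ D * √(Real.log N) →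
        (P:ℝ) * T ≤ Real.exp (c * √(Real.log N)) → Described d P T N A → APFree k A →
          (A.card : ℝ) ≤ N * Real.exp (-(c * √(Real.log N)))) ∧
    -- (4) large progression-free sets have dimension at least `c √(log N)`
    (∀ C : ℝ, ∃ c : ℝ, 0 < c ∧ ∃ N₀ : ℕ, ∀ N : ℕ, N₀ ≤ N →
      ∀ (d P T : ℕ) (A : Finset ℕ), 1 ≤ d → (P:ℝ) * T ≤ Real.exp (C * √(Real.log N)) →
        Described d P T N A → APFree 3 A →
        (N * Real.exp (-(C * √(Real.log N))) ≤ A.card ∨ Extremal N A) →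
          c * √(Real.log N) ≤ d) := by
  refine ⟨fun k d P T N hk hd hN A hA hf => upper hk hd hN hA hf, fun N hN => lower hN,
    fun k hk D => thin k hk D, fun C => ?_⟩
  obtain ⟨c, hc, N₀, h⟩ := dimension (max C 4)
  refine ⟨c, hc, max N₀ 4096, fun N hN d P T A hd hPT hA hf hor => ?_⟩
  have hs : 0 ≤ √(Real.log N) := Real.sqrt_nonneg _
  refine h N ((le_max_left _ _).trans hN) d P T A hd
    (hPT.trans (Real.exp_le_exp.2 (by gcongr; exact le_max_left _ _))) hA hf ?_
  rcases hor with hbig | hext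
  · refine le_trans ?_ hbig
    gcongr
    exact le_max_left _ _
  · obtain ⟨B, hB, hBf, hBc⟩ := lower ((le_max_right _ _).trans hN)
    have hBI : B ⊆ Icc 1 N := by
      obtain ⟨_, _, _, _, hmem⟩ := hB
      exact fun n hn => ((hmem n).1 hn).1
    have h1 : (B.card : ℝ) ≤ A.card := by exact_mod_cast hext.2.2 B hBI hBf
    refine le_trans ?_ (hBc.le.trans h1)
    gcongr
    have : 4 * √(Real.log N) ≤ max C 4 * √(Real.log N) := by gcongr; exact le_max_right _ _
    linarith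

end Pool.Agent.Results.MP_0f71ae_nt.BohrDimension
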