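import Pool.Agent.Q247.AC.Digits

set_option autoImplicit false

/-!
# Progressions in sets of integers and circuits of constant depth on the digits

Let `N = b ^ n`. We consider sets `F` of integers in `[0, N)` which are decided by circuits of
constant depth whose inputs are arbitrary tests of single digits in base `b`.

* Sets without `k`-term progressions, `k ≤ b`, which are unions of few such sets have size at most
  `N 2 ^ (- c n / loss)`; so Behrend's sets and the extremal sets for `r_3(N)` are not decided by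
  circuits of depth `d` and size smaller than `exp (c n ^ (1 / (2 d)))`.
* *Every* set without `k`-term progressions (decided by a circuit or not) has small relative density
  in every such set `F` with at least `N 2 ^ (- c n / loss)` elements: a Roth-Szemerédi theorem
  relative to arbitrary sparse sets `F` of low circuit complexity.

Here `loss = d (2 ^ (d + 9) w (ℓ + 1)) ^ d` for circuits of depth `d` with `2 ^ ℓ` nodes.
-/

namespace Pool.Agent.Results.MP_0f71ae_nt.ConstantDepthDigits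

open Finset Function Pool.Agent.Q247.AC

/-- `F` is decided by a circuit of depth at most `d` with at most `2 ^ ℓ` nodes which reads the `n`
digits of an integer in base `b`. The nodes are arbitrary tests of one digit (of depth at least 1),
AND and OR gates with any number of wires, and arbitrary gates with at most `w` wires; negations are
free. (`value x = ∑ i, x i * b ^ i` is the number with the digits `x`.) -/
def Decided (w ℓ d b n : ℕ) (F : Finset ℕ) : Prop :=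
  ∃ (C : Circuit w n (Fin b)) (o : C.Node), Nat.card C.Node ≤ 2 ^ ℓ ∧ (∀ v, C.depth v ≤ d) ∧
    ∀ x : Fin n → Fin b, value x ∈ F ↔ C.val o x = true

/-- `loss w ℓ d = d (2 ^ (d + 9) w (ℓ + 1)) ^ d` -/
def loss (w ℓ d : ℕ) : ℕ := d * (2 ^ (d + 9) * (w * (ℓ + 1))) ^ d

theorem loss_eq (w ℓ d : ℕ) : ((loss w ℓ d : ℕ) : ℝ) = (d : ℝ) * Y347.CO.KK d w (ℓ + 1) := by
  rw [loss, Y347.CO.KK, Nat.cast_mul]

theorem le_loss {w ℓ d : ℕ} (hw : 1 ≤ w) (hd : 1 ≤ d) : ℓ + 1 ≤ loss w ℓ d := by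
  unfold loss
  have h1 : ℓ + 1 ≤ 2 ^ (d + 9) * (w * (ℓ + 1)) := by
    have h2 : 1 ≤ 2 ^ (d + 9) := Nat.one_le_two_pow
    calc ℓ + 1 = 1 * (1 * (ℓ + 1)) := by ring
      _ ≤ 2 ^ (d + 9) * (w * (ℓ + 1)) := by gcongr
  calc ℓ + 1 ≤ 2 ^ (d + 9) * (w * (ℓ + 1)) := h1
    _ ≤ (2 ^ (d + 9) * (w * (ℓ + 1))) ^ d := Nat.le_self_pow (by omega) _
    _ ≤ _ := Nat.le_mul_of_pos_left _ hd

/-- part (1) -/
theorem part1 (k b n w ℓ d T : ℕ) (hk : 2 ≤ k) (hkb : k ≤ b) (hw : 1 ≤ w) (hd1 : 1 ≤ d)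
    (A : Finset ℕ) (F : Fin T → Finset ℕ) (hAn : ∀ a ∈ A, a < b ^ n)
    (hA : ∀ a i : ℕ, i < n → ¬ ∀ j < k, a + j * b ^ i ∈ A)
    (hF : ∀ s, Decided w ℓ d b n (F s)) (hun : ∀ a, a ∈ A ↔ ∃ s, a ∈ F s) :
    (A.card : ℝ) ≤ 2 * b * T * b ^ n * (2 : ℝ) ^ (2 * ℓ + 6 - n / (2 * b * loss w ℓ d) : ℝ) := by
  classical
  have : NeZero b := ⟨by omega⟩
  have h1 : ∀ s, ((F s).card : ℝ) ≤
      2 * b * (b ^ n * (2 : ℝ) ^ (2 * ℓ + 6 - n / (2 * b * loss w ℓ d) : ℝ)) := by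
    intro s
    obtain ⟨C, o, hs, hd, hCF⟩ := hF s
    have hFA : ∀ a ∈ F s, a ∈ A := fun a ha => (hun a).2 ⟨s, ha⟩
    have h := small_main C hw hd1 hs hd o (words b n (F s))
      (fun x => mem_words.trans (hCF x)) (c := b) (by omega) (fun v _ => Equiv.addRight v) ?_
    · unfold err at h
      rw [card_words (fun a ha => hAn a (hFA a ha)), Fintype.card_fin, ← loss_eq] at h
      refine h.trans (le_of_eq ?_)
      have e : (n : ℝ) / (2 * b) / (loss w ℓ d) = n / (2 * b * loss w ℓ d) := by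
        rw [div_div]
      rw [e]
    · intro x _ i
      by_contra hcon
      push Not at hcon
      obtain ⟨R, hR⟩ := value_update x i
      apply hA R i i.2
      intro j hj
      have h2 := mem_words.1 (hcon ((⟨j, by omega⟩ : Fin b) - x i))
      have e : (Equiv.addRight ((⟨j, by omega⟩ : Fin b) - x i)) (x i) = ⟨j, by omega⟩ := by
        simp
      rw [e, hR] at h2
      exact hFA _ h2
  have h2 : A.card ≤ ∑ s, (F s).card := by
    refine (card_le_card (t := univ.biUnion F) fun x hx => ?_).trans card_biUnion_le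
    obtain ⟨s, hs⟩ := (hun x).1 hx
    exact mem_biUnion.2 ⟨s, mem_univ _, hs⟩
  have h3 : (A.card : ℝ) ≤ ∑ s, ((F s).card : ℝ) := by exact_mod_cast h2
  refine h3.trans ((sum_le_sum fun s _ => h1 s).trans (le_of_eq ?_))
  rw [sum_const, card_univ, Fintype.card_fin, nsmul_eq_mul]
  ring

/-- part (4) -/
theorem part4 (b : ℕ) (hb : 3 ≤ b) (C : ℝ) : ∃ δ : ℝ, 0 < δ ∧ ∀ n : ℕ, 1 ≤ n →
    ∀ (w ℓ d T : ℕ), 1 ≤ w → 1 ≤ d → (T : ℝ) ≤ Real.exp (C * Real.sqrt n) →
    ∀ (A : Finset ℕ) (F : Fin T → Finset ℕ), (∀ a ∈ A, a < b ^ n) → NoAP 3 A →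
    (∀ s, Decided w ℓ d b n (F s)) → (∀ a, a ∈ A ↔ ∃ s, a ∈ F s) →
    (b : ℝ) ^ n * Real.exp (-(C * Real.sqrt n)) ≤ A.card → δ * Real.sqrt n ≤ loss w ℓ d := by
  have hbr : (3 : ℝ) ≤ b := by exact_mod_cast hb
  have hlogb : 0 < Real.log (2 * b) := Real.log_pos (by linarith)
  have hlog2 : 0 < Real.log 2 := Real.log_pos (by norm_num)
  have hlog2' : Real.log 2 ≤ 1 := by
    have := Real.log_two_lt_d9
    linarith
  set D : ℝ := Real.log (2 * b) + 2 * |C| + 9 with hD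
  have hD0 : 0 < D := by positivity
  set δ : ℝ := min 1 (Real.log 2 / (2 * b * D)) with hδ
  have hδ0 : 0 < δ := lt_min one_pos (by positivity)
  have hδ1 : δ ≤ 1 := min_le_left _ _
  have hδ2 : δ ≤ Real.log 2 / (2 * b * D) := min_le_right _ _
  refine ⟨δ, hδ0, ?_⟩
  intro n hn w ℓ d T hw hd hT A F hAn hA hF hun hlow
  by_contra hcon
  push Not at hcon
  have hnr : (1 : ℝ) ≤ n := by exact_mod_cast hn
  have hsq : Real.sqrt n * Real.sqrt n = n := Real.mul_self_sqrt (by positivity)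
  have hsq1 : 1 ≤ Real.sqrt n := by
    rw [Real.one_le_sqrt]; exact hnr
  have hL1 : (ℓ : ℝ) + 1 ≤ loss w ℓ d := by exact_mod_cast le_loss hw hd
  have hℓ0 : (0 : ℝ) ≤ ℓ := Nat.cast_nonneg _
  have hL0 : (0 : ℝ) < loss w ℓ d := by linarith
  set L : ℝ := (loss w ℓ d : ℝ) with hL
  have h1 := part1 3 b n w ℓ d T (by norm_num) hb hw hd A F hAn (by
    intro a i _ h
    exact hA a (b ^ i) (by positivity) h) hF hun
  rw [← hL] at h1
  set E : ℝ := 2 * ℓ + 6 - n / (2 * b * L) with hE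
  have hbn : (0 : ℝ) < (b : ℝ) ^ n := by positivity
  have h2 : (b : ℝ) ^ n * Real.exp (-(C * Real.sqrt n)) ≤
      (b : ℝ) ^ n * (2 * b * Real.exp (C * Real.sqrt n) * (2 : ℝ) ^ E) := by
    refine hlow.trans (h1.trans ?_)
    calc 2 * (b : ℝ) * T * b ^ n * (2 : ℝ) ^ E = (b : ℝ) ^ n * (2 * b * T * (2 : ℝ) ^ E) := by ring
      _ ≤ _ := by gcongr
  have h3 := le_of_mul_le_mul_left h2 hbn
  have h4 : Real.exp (-(C * Real.sqrt n)) ≤
      Real.exp (Real.log (2 * b) + C * Real.sqrt n + Real.log 2 * E) := by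
    rw [Real.exp_add, Real.exp_add, Real.exp_log (by linarith)]
    refine h3.trans (le_of_eq ?_)
    rw [Real.rpow_def_of_pos (by norm_num : (0 : ℝ) < 2)]
  have h5 := Real.exp_le_exp.1 h4
  -- the main term
  have h6 : n / (2 * b * L) * Real.log 2 ≥ D * Real.sqrt n := by
    have h7 : 2 * b * L ≤ 2 * b * (δ * Real.sqrt n) := by
      have : L ≤ δ * Real.sqrt n := hcon.le
      have h8 : (0 : ℝ) ≤ 2 * b := by positivity
      exact mul_le_mul_of_nonneg_left this h8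
    have h8 : 2 * b * (δ * Real.sqrt n) * D ≤ Real.log 2 * Real.sqrt n := by
      rw [le_div_iff₀ (by positivity)] at hδ2
      have := mul_le_mul_of_nonneg_right hδ2 (Real.sqrt_nonneg n)
      refine le_trans (le_of_eq ?_) this
      ring
    rw [ge_iff_le, div_mul_eq_mul_div, le_div_iff₀ (by positivity)]
    calc D * Real.sqrt n * (2 * b * L) ≤ D * Real.sqrt n * (2 * b * (δ * Real.sqrt n)) :=
          mul_le_mul_of_nonneg_left h7 (by positivity)
      _ = 2 * b * (δ * Real.sqrt n) * D * Real.sqrt n := by ring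
      _ ≤ Real.log 2 * Real.sqrt n * Real.sqrt n :=
          mul_le_mul_of_nonneg_right h8 (Real.sqrt_nonneg n)
      _ = n * Real.log 2 := by rw [mul_assoc, hsq]; ring
  have h9 : Real.log 2 * E = Real.log 2 * (2 * ℓ + 6) - n / (2 * b * L) * Real.log 2 := by
    rw [hE]; ring
  have h10 : Real.log 2 * (2 * ℓ + 6) ≤ 2 * Real.sqrt n + 4 * Real.sqrt n := by
    have h11 : (ℓ : ℝ) + 1 ≤ Real.sqrt n := by
      have : δ * Real.sqrt n ≤ 1 * Real.sqrt n :=
        mul_le_mul_of_nonneg_right hδ1 (Real.sqrt_nonneg n)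
      linarith
    have h12 : Real.log 2 * (2 * ℓ + 6) ≤ 1 * (2 * ℓ + 6) :=
      mul_le_mul_of_nonneg_right hlog2' (by positivity)
    linarith
  have h13 : C * Real.sqrt n ≤ |C| * Real.sqrt n :=
    mul_le_mul_of_nonneg_right (le_abs_self C) (Real.sqrt_nonneg n)
  have h14 : Real.log (2 * b) ≤ Real.log (2 * b) * Real.sqrt n :=
    le_mul_of_one_le_right hlogb.le hsq1
  have h15 : D * Real.sqrt n = Real.log (2 * b) * Real.sqrt n + 2 * (|C| * Real.sqrt n) +
      9 * Real.sqrt n := by rw [hD]; ring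
  linarith

/-- **Theorem.** Let `w, d ≥ 1`. Circuits are as in `Decided`: depth `d`, `2 ^ ℓ` nodes, inputs are
tests of single digits in base `b`.
(1) Let `2 ≤ k ≤ b` and let `A ⊆ [0, b^n)` be a union of `T` sets decided by circuits. If `A`
contains no progression `a, a + b^i, …, a + (k - 1) b^i`, `i < n`, then
`|A| ≤ 2 b T b^n 2^(2 ℓ + 6 - n / (2 b loss))`.
(2) Let `b ≥ 2`, `1 ≤ m ≤ n` and suppose that subsets of `[0, b^m)` without `k`-term progressions have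
at most `r` elements. For every `F ⊆ [0, b^n)` decided by a circuit, every `A ⊆ [0, b^n)` without
`k`-term progressions and every `ε ≥ 0`,
`|A ∩ F| ≤ (r / b^m + ε) |F| + m b^n 2^(2 ℓ + 6 - ε ⌊n / m⌋ / loss)`.
(3) For all `k`, `b ≥ 2` and `δ > 0` there is `c > 0` such that for all `n`, all such `F` and `A`,
`|A ∩ F| ≤ δ |F| + b^n 2^(2 ℓ + 1 / c - c n / loss)`.
(4) For all `b ≥ 3` and `C` there is `δ > 0` such that for all `n ≥ 1`: if a set `A ⊆ [0, b^n)`
without three-term progressions is a union of `T ≤ exp (C √n)` sets decided by circuits and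
`|A| ≥ b^n exp (- C √n)`, then `loss ≥ δ √n`.
(5) In particular this holds for `|A| = r_3(b^n)`. -/
theorem result :
    (∀ k b n w ℓ d T : ℕ, 2 ≤ k → k ≤ b → 1 ≤ w → 1 ≤ d →
      ∀ (A : Finset ℕ) (F : Fin T → Finset ℕ), (∀ a ∈ A, a < b ^ n) →
        (∀ a i : ℕ, i < n → ¬ ∀ j < k, a + j * b ^ i ∈ A) →
        (∀ s, Decided w ℓ d b n (F s)) → (∀ a, a ∈ A ↔ ∃ s, a ∈ F s) →
        (A.card : ℝ) ≤
          2 * b * T * b ^ n * (2 : ℝ) ^ (2 * ℓ + 6 - n / (2 * b * loss w ℓ d) : ℝ)) ∧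
    (∀ k b n m w ℓ d r : ℕ, 2 ≤ b → 1 ≤ w → 1 ≤ d → 1 ≤ m → m ≤ n →
      (∀ B : Finset ℕ, (∀ a ∈ B, a < b ^ m) → NoAP k B → B.card ≤ r) →
      ∀ F A : Finset ℕ, (∀ a ∈ F, a < b ^ n) → Decided w ℓ d b n F → NoAP k A →
        ∀ ε : ℝ, 0 ≤ ε → ((A ∩ F).card : ℝ) ≤ (r / b ^ m + ε) * F.card +
          m * (b ^ n * (2 : ℝ) ^ (2 * ℓ + 6 - ε * (n / m : ℕ) / loss w ℓ d : ℝ))) ∧
    (∀ k b : ℕ, 2 ≤ b → ∀ δ : ℝ, 0 < δ → ∃ c : ℝ, 0 < c ∧ ∀ n w ℓ d : ℕ, 1 ≤ w → 1 ≤ d →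
      ∀ F A : Finset ℕ, (∀ a ∈ F, a < b ^ n) → Decided w ℓ d b n F → NoAP k A →
        ((A ∩ F).card : ℝ) ≤ δ * F.card +
          b ^ n * (2 : ℝ) ^ (2 * ℓ + 1 / c - c * n / loss w ℓ d : ℝ)) ∧
    (∀ b : ℕ, 3 ≤ b → ∀ C : ℝ, ∃ δ : ℝ, 0 < δ ∧ ∀ n : ℕ, 1 ≤ n → ∀ (w ℓ d T : ℕ), 1 ≤ w → 1 ≤ d →
      (T : ℝ) ≤ Real.exp (C * Real.sqrt n) → ∀ (A : Finset ℕ) (F : Fin T → Finset ℕ),
      (∀ a ∈ A, a < b ^ n) → NoAP 3 A → (∀ s, Decided w ℓ d b n (F s)) →
      (∀ a, a ∈ A ↔ ∃ s, a ∈ F s) → (b : ℝ) ^ n * Real.exp (-(C * Real.sqrt n)) ≤ A.card →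
      δ * Real.sqrt n ≤ loss w ℓ d) ∧
    (∀ b : ℕ, 3 ≤ b → ∀ C : ℝ, ∃ δ : ℝ, 0 < δ ∧ ∀ n : ℕ, 1 ≤ n → ∀ (w ℓ d T : ℕ), 1 ≤ w → 1 ≤ d →
      (T : ℝ) ≤ Real.exp (C * Real.sqrt n) → ∀ (A : Finset ℕ) (F : Fin T → Finset ℕ),
      (∀ a ∈ A, a < b ^ n) → NoAP 3 A → (∀ s, Decided w ℓ d b n (F s)) →
      (∀ a, a ∈ A ↔ ∃ s, a ∈ F s) → A.card = rothNumberNat (b ^ n) →
      δ * Real.sqrt n ≤ loss w ℓ d) := by
  classical
  refine ⟨part1, ?_, ?_, part4, ?_⟩
  · intro k b n m w ℓ d r hb hw hd1 hm hmn hr F A hFn hF hA ε hε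
    have : NeZero b := ⟨by omega⟩
    obtain ⟨C, o, hs, hd, hCF⟩ := hF
    have h := rel_blocks C hw hd1 hs hd o (words b n F) (words b n A)
      (fun x => mem_words.trans (hCF x)) (by omega : 0 < m) hmn r
      (fun x j hj => block_card (by omega) (by omega) hA hr x hj) hε
    unfold err at h
    rw [words_inter, card_words (fun a ha => hFn a (mem_inter.1 ha).2), card_words hFn,
      Fintype.card_fin, ← loss_eq] at h
    exact h
  · intro k b hb δ hδ
    have : NeZero b := ⟨by omega⟩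
    obtain ⟨m, hm, hsz⟩ := szem k b hb (δ / 2) (by positivity)
    obtain ⟨c, hc, h⟩ := rel_delta (X := Fin b) δ hδ (m := m) (by omega)
    refine ⟨c, hc, fun n w ℓ d hw hd1 F A hFn hF hA => ?_⟩
    obtain ⟨C, o, hs, hd, hCF⟩ := hF
    have h1 := h n w ℓ d C hw hd1 hs hd o (words b n F) (words b n A)
      (fun x => mem_words.trans (hCF x)) (fun x j hj => by
        have h2 := block_card (r := ⌊δ / 2 * (b : ℝ) ^ m⌋₊) (by omega : 1 < b) (by omega : 0 < m) hA
          (fun B hB1 hB2 => Nat.le_floor (hsz B hB1 hB2)) x hj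
        have h3 : ((⌊δ / 2 * (b : ℝ) ^ m⌋₊ : ℕ) : ℝ) ≤ δ / 2 * (b : ℝ) ^ m :=
          Nat.floor_le (by positivity)
        rw [Fintype.card_fin]
        refine le_trans ?_ h3
        exact_mod_cast h2)
    rw [words_inter, card_words (fun a ha => hFn a (mem_inter.1 ha).2), card_words hFn,
      Fintype.card_fin, ← loss_eq] at h1
    exact h1
  · intro b hb C
    have hbr : (3 : ℝ) ≤ b := by exact_mod_cast hb
    have hlog : 0 < Real.log b := Real.log_pos (by linarith)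
    obtain ⟨δ, hδ, h⟩ := part4 b hb (max C (4 * Real.sqrt (Real.log b)))
    refine ⟨δ, hδ, ?_⟩
    intro n hn w ℓ d T hw hd hT A F hAn hA hF hun hcard
    refine h n hn w ℓ d T hw hd (hT.trans (Real.exp_le_exp.2 ?_)) A F hAn hA hF hun ?_
    · gcongr
      exact le_max_left _ _
    · rw [hcard]
      have h1 := Behrend.roth_lower_bound (N := b ^ n)
      refine le_trans ?_ h1
      push_cast
      gcongr
      rw [Real.log_pow, Real.sqrt_mul (by positivity), neg_mul]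
      apply neg_le_neg
      calc 4 * (Real.sqrt n * Real.sqrt (Real.log b)) =
            4 * Real.sqrt (Real.log b) * Real.sqrt n := by ring
        _ ≤ _ := by
            gcongr
            exact le_max_right _ _

end Pool.Agent.Results.MP_0f71ae_nt.ConstantDepthDigits
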