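import Pool.Agent.Q247.BW.LineFree
import Pool.Agent.Q247.AC.Digits

set_option autoImplicit false

/-!
# Progressions in sets of integers and machines with few states on the digits

Let `N = b ^ n`, `b ≥ 3`. Nondeterministic machines with a bounded number `w` of states read the `n`
digits in base `b` of an integer in `[0, N)` once, in an arbitrary order; the transitions may depend
on the time. Let `k ≤ b`.

* A set without `k`-term progressions which is a union of `T` sets decided by such machines (with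
  different orders) has at most `2 T w N 2 ^ (- ⌊n / m⌋)` elements, `m = m(b, w)`. So the sets with
  `r_3(N)` elements are not unions of `exp (c n)` such sets.
* *Every* set without `k`-term progressions has small relative density in every set `F ⊆ [0, N)`
  decided by such a machine which has at least `N 2 ^ (- c n) = N ^ (1 - c')` elements: a
  Roth-Szemerédi theorem relative to sparse sets of bounded width, e.g. sets of missing digits with
  arbitrary finite memory.
-/

namespace Pool.Agent.Results.MP_0f71ae_nt.MachinesOnDigits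

open Finset Function Pool.Agent.Q247.BW Pool.Agent.Q247.AC

/-- The set `B` of integers in `[0, b ^ n)` is decided by a nondeterministic machine with at most `w`
states that reads the `n` digits in base `b` once, in the given order
(`value x = ∑ i, x i * b ^ i` is the number with the digits `x`). -/
def Decided (w b : ℕ) {n : ℕ} (order : Fin n ≃ Fin n) (B : Finset ℕ) : Prop :=
  ∃ (Q : Type) (_ : Fintype Q) (M : Machine Q (Fin b)), Fintype.card Q ≤ w ∧
    ∀ x : Fin n → Fin b, value x ∈ B ↔ M.Accepts order x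

/-- The set `P` of integers in `[0, b ^ n)` is a product set with respect to the sets `J j` of
positions and the set of the remaining positions: the digits in `J j` of an element of `P` may be
replaced by those of another element. -/
def IsProduct {r n : ℕ} (b : ℕ) (J : Fin r → Finset (Fin n)) (P : Finset ℕ) : Prop :=
  ∀ j, ∀ x y : Fin n → Fin b, value x ∈ P → value y ∈ P →
    value (fun i => if i ∈ J j then y i else x i) ∈ P

theorem lineFree_words {k b n : ℕ} [NeZero b] (hkb : k ≤ b) {A : Finset ℕ} (hA : NoAP k A) :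
    LineFree (words b n A) := by
  classical
  rintro V ⟨i, hi⟩
  by_contra hcon
  push Not at hcon
  have hb : 0 < b := Nat.pos_of_ne_zero (NeZero.ne b)
  refine hA (∑ l ∈ univ.filter (fun l => ¬ V l = Sum.inr ()),
      ((Sum.elim id (fun _ => (⟨0, hb⟩ : Fin b)) (V l) : Fin b) : ℕ) * b ^ (l : ℕ))
    (∑ l ∈ univ.filter (fun l => V l = Sum.inr ()), b ^ (l : ℕ)) ?_ ?_
  · apply sum_pos
    · intro l _
      positivity
    · exact ⟨i, mem_filter.2 ⟨mem_univ _, hi⟩⟩
  · intro a ha
    have h1 := mem_words.1 (hcon ⟨a, by omega⟩)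
    have h2 : value (fun l => Sum.elim id (fun _ => (⟨a, by omega⟩ : Fin b)) (V l)) =
        ∑ l ∈ univ.filter (fun l => ¬ V l = Sum.inr ()),
          ((Sum.elim id (fun _ => (⟨0, hb⟩ : Fin b)) (V l) : Fin b) : ℕ) * b ^ (l : ℕ) +
        a * ∑ l ∈ univ.filter (fun l => V l = Sum.inr ()), b ^ (l : ℕ) := by
      unfold value
      rw [← sum_filter_add_sum_filter_not univ (fun l => V l = Sum.inr ()), add_comm, mul_sum]
      congr 1
      · apply sum_congr rfl
        intro l hl
        have h3 := (mem_filter.1 hl).2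
        dsimp only
        rcases hVl : V l with c | c
        · simp
        · exact absurd (by rw [hVl]) h3
      · apply sum_congr rfl
        intro l hl
        dsimp only
        rw [(mem_filter.1 hl).2]
        simp
    rw [h2] at h1
    exact h1

theorem mem_words_union {b n T : ℕ} {F : Finset ℕ} {B : Fin T → Finset ℕ}
    (hF : ∀ a, a ∈ F ↔ ∃ s, a ∈ B s) (x : Fin n → Fin b) :
    x ∈ words b n F ↔ ∃ s, x ∈ words b n (B s) := by
  rw [mem_words, hF]
  exact exists_congr fun s => mem_words.symm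

/-- part (1) -/
theorem part1 (b w : ℕ) (hb : 2 ≤ b) (hw : 1 ≤ w) (δ : ℝ) (hδ : 0 < δ) : ∃ m : ℕ, 1 ≤ m ∧
    ∀ (n T k : ℕ), k ≤ b → ∀ (order : Fin n ≃ Fin n) (A F : Finset ℕ) (B : Fin T → Finset ℕ),
      (∀ a ∈ F, a < b ^ n) → NoAP k A → (∀ s, Decided w b order (B s)) →
      (∀ a, a ∈ F ↔ ∃ s, a ∈ B s) →
      ((A ∩ F).card : ℝ) ≤ δ * F.card + T * w * (b : ℝ) ^ n * (1 / 2 : ℝ) ^ (n / m) := by
  classical
  have : NeZero b := ⟨by omega⟩
  obtain ⟨m, hm, h⟩ := lineFree_machine (Fin b) w hw δ hδ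
  refine ⟨m, hm, fun n T k hkb order A F B hFn hA hB hF => ?_⟩
  have h2 := h n T order (words b n A) (words b n F) (fun s => words b n (B s))
    (mem_words_union hF) (fun s => by
      obtain ⟨Q, hQ, M, hc, hM⟩ := hB s
      exact ⟨Q, hQ, M, hc, fun x => mem_words.trans (hM x)⟩) (lineFree_words hkb hA)
  rwa [words_inter, card_words (fun a ha => hFn a (mem_inter.1 ha).2), card_words hFn,
    Fintype.card_fin] at h2

/-- part (2) -/
theorem part2 (b w : ℕ) (hb : 2 ≤ b) (hw : 1 ≤ w) : ∃ m : ℕ, 1 ≤ m ∧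
    ∀ (n T k : ℕ), k ≤ b → ∀ (order : Fin T → (Fin n ≃ Fin n)) (A : Finset ℕ)
      (B : Fin T → Finset ℕ), (∀ a ∈ A, a < b ^ n) → NoAP k A →
      (∀ s, Decided w b (order s) (B s)) → (∀ a, a ∈ A ↔ ∃ s, a ∈ B s) →
      (A.card : ℝ) ≤ 2 * T * w * (b : ℝ) ^ n * (1 / 2 : ℝ) ^ (n / m) := by
  classical
  obtain ⟨m, hm, h⟩ := part1 b w hb hw (1 / 2) (by norm_num)
  refine ⟨m, hm, fun n T k hkb order A B hAn hA hB hun => ?_⟩
  have h2 : ∀ s, ((B s).card : ℝ) ≤ 2 * (w * (b : ℝ) ^ n * (1 / 2 : ℝ) ^ (n / m)) := by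
    intro s
    have h3 := h n 1 k hkb (order s) (B s) (B s) (fun _ => B s)
      (fun a ha => hAn a ((hun a).2 ⟨s, ha⟩))
      (fun a d hd hcon => hA a d hd fun i hi => (hun _).2 ⟨s, hcon i hi⟩) (fun _ => hB s)
      (fun x => ⟨fun h => ⟨0, h⟩, fun ⟨_, h⟩ => h⟩)
    rw [inter_self] at h3
    push_cast at h3
    linarith
  have h3 : A.card ≤ ∑ s, (B s).card := by
    refine (card_le_card (t := univ.biUnion B) fun x hx => ?_).trans card_biUnion_le
    obtain ⟨s, hs⟩ := (hun x).1 hx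
    exact mem_biUnion.2 ⟨s, mem_univ _, hs⟩
  have h4 : (A.card : ℝ) ≤ ∑ s, ((B s).card : ℝ) := by exact_mod_cast h3
  refine h4.trans ((sum_le_sum fun s _ => h2 s).trans (le_of_eq ?_))
  rw [sum_const, card_univ, Fintype.card_fin, nsmul_eq_mul]
  ring

/-- part (3) -/
theorem part3 (b w : ℕ) (hb : 3 ≤ b) (hw : 1 ≤ w) : ∃ (c : ℝ) (n₀ : ℕ), 0 < c ∧
    ∀ n : ℕ, n₀ ≤ n → ∀ (T : ℕ) (order : Fin T → (Fin n ≃ Fin n)) (A : Finset ℕ)
      (B : Fin T → Finset ℕ), (∀ a ∈ A, a < b ^ n) → NoAP 3 A → A.card = rothNumberNat (b ^ n) →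
      (∀ s, Decided w b (order s) (B s)) → (∀ a, a ∈ A ↔ ∃ s, a ∈ B s) →
      Real.exp (c * n) ≤ T := by
  classical
  have hbr : (3 : ℝ) ≤ b := by exact_mod_cast hb
  have hlog : 0 < Real.log b := Real.log_pos (by linarith)
  have hlog2 : (0.69 : ℝ) < Real.log 2 := by
    have := Real.log_two_gt_d9
    linarith
  obtain ⟨m, hm, h⟩ := part2 b w (by omega) hw
  have hm0 : (0 : ℝ) < m := by exact_mod_cast hm
  have hwr : (1 : ℝ) ≤ w := by exact_mod_cast hw
  set c : ℝ := 1 / (4 * m) with hc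
  have hc0 : 0 < c := by positivity
  set D : ℝ := Real.log (4 * w) + 4 * Real.sqrt (Real.log b) with hD
  have hD0 : 0 < D := by
    have : 0 < Real.log (4 * w) := Real.log_pos (by linarith)
    positivity
  refine ⟨c, ⌈(D / c) ^ 2⌉₊ + 1, hc0, ?_⟩
  intro n hn T order A B hAn hA hcard hB hun
  have hn1 : 1 ≤ n := by omega
  have hnr : (1 : ℝ) ≤ n := by exact_mod_cast hn1
  have hsq : Real.sqrt n * Real.sqrt n = n := Real.mul_self_sqrt (by positivity)
  have hsq1 : 1 ≤ Real.sqrt n := by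
    rw [Real.one_le_sqrt]; exact hnr
  have hcn : D ≤ c * Real.sqrt n := by
    have h1 : (D / c) ^ 2 ≤ n := by
      have h2 := Nat.le_ceil ((D / c) ^ 2)
      have h3 : ((⌈(D / c) ^ 2⌉₊ + 1 : ℕ) : ℝ) ≤ n := by exact_mod_cast hn
      push_cast at h3
      linarith
    have h2 : D / c ≤ Real.sqrt n := Real.le_sqrt_of_sq_le h1
    rw [div_le_iff₀ hc0] at h2
    linarith
  have h1 := h n T 3 hb order A B hAn hA hB hun
  have h2 := Behrend.roth_lower_bound (N := b ^ n)
  rw [← hcard] at h2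
  push_cast at h2
  rw [Real.log_pow, Real.sqrt_mul (by positivity)] at h2
  have hbn : (0 : ℝ) < (b : ℝ) ^ n := by positivity
  have h3 : (b : ℝ) ^ n * Real.exp (-4 * (Real.sqrt n * Real.sqrt (Real.log b))) ≤
      (b : ℝ) ^ n * (2 * T * w * (1 / 2 : ℝ) ^ (n / m)) := by
    refine h2.trans (h1.trans (le_of_eq ?_))
    ring
  have h4 := le_of_mul_le_mul_left h3 hbn
  -- the power of two
  have h5 : (1 / 2 : ℝ) ^ (n / m) ≤ 2 * Real.exp (-(2 * c * n)) := by
    have h6 : (n : ℝ) / m - 1 ≤ ((n / m : ℕ) : ℝ) := by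
      have h4 := Nat.div_add_mod n m
      have h5 := Nat.mod_lt n (by omega : 0 < m)
      have h6 : (n : ℝ) = m * ((n / m : ℕ) : ℝ) + ((n % m : ℕ) : ℝ) := by exact_mod_cast h4.symm
      have h7 : ((n % m : ℕ) : ℝ) < m := by exact_mod_cast h5
      rw [sub_le_iff_le_add, div_le_iff₀ hm0]
      nlinarith
    have e1 : (1 / 2 : ℝ) ^ (n / m) = Real.exp (-(Real.log 2 * ((n / m : ℕ) : ℝ))) := by
      rw [← Real.rpow_natCast, Real.rpow_def_of_pos (by norm_num), one_div, Real.log_inv]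
      congr 1
      ring
    have e2 : 2 * Real.exp (-(2 * c * n)) = Real.exp (Real.log 2 + -(2 * c * n)) := by
      rw [Real.exp_add, Real.exp_log (by norm_num)]
    rw [e1, e2]
    apply Real.exp_le_exp.2
    have h7 : Real.log 2 * ((n : ℝ) / m - 1) ≤ Real.log 2 * ((n / m : ℕ) : ℝ) :=
      mul_le_mul_of_nonneg_left h6 (by linarith)
    have h8 : 2 * c * n ≤ Real.log 2 * ((n : ℝ) / m) := by
      have e3 : 2 * c * n = (1 / 2) * ((n : ℝ) / m) := by
        rw [hc]
        field_simp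
        ring
      rw [e3]
      apply mul_le_mul_of_nonneg_right (by linarith) (by positivity)
    rw [mul_sub, mul_one] at h7
    linarith
  have h6 : Real.exp (-4 * (Real.sqrt n * Real.sqrt (Real.log b))) ≤
      4 * w * Real.exp (-(2 * c * n)) * T := by
    refine h4.trans ?_
    have h7 : (0 : ℝ) ≤ 2 * T * w := by positivity
    calc 2 * (T : ℝ) * w * (1 / 2 : ℝ) ^ (n / m) ≤ 2 * T * w * (2 * Real.exp (-(2 * c * n))) :=
          mul_le_mul_of_nonneg_left h5 h7
      _ = _ := by ring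
  have h7 : Real.exp (c * n) * (4 * w * Real.exp (-(2 * c * n))) ≤
      (4 * w * Real.exp (-(2 * c * n))) * T := by
    refine le_trans ?_ h6
    have e1 : (4 * w : ℝ) = Real.exp (Real.log (4 * w)) := (Real.exp_log (by linarith)).symm
    rw [e1, ← Real.exp_add, ← Real.exp_add]
    apply Real.exp_le_exp.2
    have h8 : D * Real.sqrt n ≤ c * n := by
      have := mul_le_mul_of_nonneg_right hcn (Real.sqrt_nonneg n)
      rw [mul_assoc, hsq] at this
      exact this
    have h9 : D * Real.sqrt n = Real.log (4 * w) * Real.sqrt n +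
        4 * (Real.sqrt n * Real.sqrt (Real.log b)) := by
      rw [hD]; ring
    have h10 : Real.log (4 * w) ≤ Real.log (4 * w) * Real.sqrt n :=
      le_mul_of_one_le_right (Real.log_pos (by linarith)).le hsq1
    linarith
  have h8 : (0 : ℝ) < 4 * w * Real.exp (-(2 * c * n)) := by positivity
  have h9 : (4 * w * Real.exp (-(2 * c * n))) * Real.exp (c * n) ≤
      (4 * w * Real.exp (-(2 * c * n))) * T := by
    refine le_trans (le_of_eq ?_) h7
    ring
  exact le_of_mul_le_mul_left h9 h8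

/-- **Theorem.** Let `w ≥ 1`. Machines are nondeterministic, with at most `w` states, and read the `n`
digits in base `b` of an integer once in an arbitrary order.
(1) For `b ≥ 2` and `δ > 0` there is `m ≥ 1` such that for all `n`, `T`, all `k ≤ b`, all sets `A`
without `k`-term progressions and all `F ⊆ [0, b^n)` which are unions of `T` sets decided by machines
(with a common order), `|A ∩ F| ≤ δ |F| + T w b^n 2^(-⌊n / m⌋)`.
(2) For `b ≥ 2` there is `m ≥ 1` such that for all `n`, `T`, `k ≤ b`: if `A ⊆ [0, b^n)` without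
`k`-term progressions is a union of `T` sets decided by machines (with different orders), then
`|A| ≤ 2 T w b^n 2^(-⌊n / m⌋)`.
(3) For `b ≥ 3` there are `c > 0` and `n₀` such that for `n ≥ n₀` no three-term progression free
subset of `[0, b^n)` with `r_3(b^n)` elements is a union of fewer than `exp (c n)` sets decided by
machines.
(4) For `b ≥ 2` and `δ ∈ (0, 1]` there is `m ≥ 1` such that for all disjoint sets `J_1, …, J_r` of at
least `m` positions, all `F ⊆ [0, b^n)` that are unions of `T` product sets with respect to them and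
all `A` without `k`-term progressions, `k ≤ b`, `|A ∩ F| ≤ δ |F| + T δ^r b^n`. -/
theorem result :
    (∀ b w : ℕ, 2 ≤ b → 1 ≤ w → ∀ δ : ℝ, 0 < δ → ∃ m : ℕ, 1 ≤ m ∧
      ∀ (n T k : ℕ), k ≤ b → ∀ (order : Fin n ≃ Fin n) (A F : Finset ℕ) (B : Fin T → Finset ℕ),
        (∀ a ∈ F, a < b ^ n) → NoAP k A → (∀ s, Decided w b order (B s)) →
        (∀ a, a ∈ F ↔ ∃ s, a ∈ B s) →
        ((A ∩ F).card : ℝ) ≤ δ * F.card + T * w * (b : ℝ) ^ n * (1 / 2 : ℝ) ^ (n / m)) ∧
    (∀ b w : ℕ, 2 ≤ b → 1 ≤ w → ∃ m : ℕ, 1 ≤ m ∧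
      ∀ (n T k : ℕ), k ≤ b → ∀ (order : Fin T → (Fin n ≃ Fin n)) (A : Finset ℕ)
        (B : Fin T → Finset ℕ), (∀ a ∈ A, a < b ^ n) → NoAP k A →
        (∀ s, Decided w b (order s) (B s)) → (∀ a, a ∈ A ↔ ∃ s, a ∈ B s) →
        (A.card : ℝ) ≤ 2 * T * w * (b : ℝ) ^ n * (1 / 2 : ℝ) ^ (n / m)) ∧
    (∀ b w : ℕ, 3 ≤ b → 1 ≤ w → ∃ (c : ℝ) (n₀ : ℕ), 0 < c ∧
      ∀ n : ℕ, n₀ ≤ n → ∀ (T : ℕ) (order : Fin T → (Fin n ≃ Fin n)) (A : Finset ℕ)
        (B : Fin T → Finset ℕ), (∀ a ∈ A, a < b ^ n) → NoAP 3 A →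
        A.card = rothNumberNat (b ^ n) → (∀ s, Decided w b (order s) (B s)) →
        (∀ a, a ∈ A ↔ ∃ s, a ∈ B s) → Real.exp (c * n) ≤ T) ∧
    (∀ b : ℕ, 2 ≤ b → ∀ δ : ℝ, 0 < δ → δ ≤ 1 → ∃ m : ℕ, 1 ≤ m ∧
      ∀ (n r T k : ℕ), k ≤ b → ∀ (J : Fin r → Finset (Fin n)),
        (∀ j j', j ≠ j' → Disjoint (J j) (J j')) → (∀ j, m ≤ (J j).card) →
        ∀ (A F : Finset ℕ) (P : Fin T → Finset ℕ), (∀ a ∈ F, a < b ^ n) → NoAP k A →
        (∀ s, IsProduct b J (P s)) → (∀ a, a ∈ F ↔ ∃ s, a ∈ P s) →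
        ((A ∩ F).card : ℝ) ≤ δ * F.card + T * δ ^ r * (b : ℝ) ^ n) := by
  classical
  refine ⟨part1, part2, part3, ?_⟩
  intro b hb δ hδ hδ1
  have : NeZero b := ⟨by omega⟩
  obtain ⟨m, hm, h⟩ := lineFree_box (Fin b) δ hδ hδ1
  refine ⟨m, hm, fun n r T k hkb J hJ hJm A F P hFn hA hP hF => ?_⟩
  have h2 := h n r J hJ hJm (words b n A) (words b n F) (fun s => words b n (P s))
    (fun s j x hx y hy => mem_words.2 (hP s j x y (mem_words.1 hx) (mem_words.1 hy)))
    (mem_words_union hF) (lineFree_words hkb hA)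
  rw [words_inter, card_words (fun a ha => hFn a (mem_inter.1 ha).2), card_words hFn,
    Fintype.card_fin, Fintype.card_fin] at h2
  refine h2.trans (le_of_eq ?_)
  ring

end Pool.Agent.Results.MP_0f71ae_nt.MachinesOnDigits
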